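import Pool.Agent.Helper14.WK.StA

/-!
# Project WK, module KH2: the Hecke relation for the primitives
-/

set_option autoImplicit false

open UpperHalfPlane CongruenceSubgroup Filter Topology
open scoped MatrixGroups

namespace Pool.Agent.Helper99.WK

open Pool.Agent.Helper14.WK
open Pool.Agent.Helper14.CV (G0)

/-- decay of `EK f j` along vertical lines -/
theorem kh2_ek (hb : SKA1b) {N : ℕ} (hN : NeZero N) {k : ℤ} (f : CuspForm (G0 N) k) (j : ℕ)
    (α β : ℝ) (hα : 0 < α) :
    Tendsto (fun y : ℝ => EK f j (((α * y : ℝ) : ℂ) * Complex.I + (β : ℂ))) atTop (𝓝 0) := by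
  obtain ⟨C, hC⟩ := hb N hN k f j
  have h2 : 0 < 2 * Real.pi * α := by positivity
  have hu : Tendsto (fun y : ℝ => 2 * Real.pi * α * y) atTop atTop :=
    tendsto_id.const_mul_atTop h2
  have h0 : Tendsto (fun y : ℝ => |C| * (2 + |β|) ^ j *
      ((2 * Real.pi * α * y) ^ j * Real.exp (-(2 * Real.pi * α * y)))) atTop (𝓝 0) := by
    have h := ((Real.tendsto_pow_mul_exp_neg_atTop_nhds_zero j).comp hu).const_mul
      (|C| * (2 + |β|) ^ j)
    simpa using h
  refine squeeze_zero_norm' ?_ h0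
  filter_upwards [eventually_ge_atTop (1 / α)] with y hy
  have hay : 1 ≤ α * y := by
    rw [div_le_iff₀ hα] at hy
    linarith
  have him : ((((α * y : ℝ) : ℂ) * Complex.I + (β : ℂ))).im = α * y := by simp
  have hnorm : ‖(((α * y : ℝ) : ℂ) * Complex.I + (β : ℂ))‖ ≤ α * y + |β| := by
    refine (norm_add_le _ _).trans ?_
    rw [norm_mul, Complex.norm_I, mul_one, Complex.norm_real, Complex.norm_real,
      Real.norm_of_nonneg (by linarith : (0 : ℝ) ≤ α * y), Real.norm_eq_abs]
  have hCw := hC (((α * y : ℝ) : ℂ) * Complex.I + (β : ℂ)) (by rw [him]; exact hay)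
  rw [him] at hCw
  have hpi : 1 ≤ 2 * Real.pi := by linarith [Real.pi_gt_three]
  have hle : 1 + ‖(((α * y : ℝ) : ℂ) * Complex.I + (β : ℂ))‖ ≤ (2 + |β|) * (2 * Real.pi * α * y) := by
    have h3 : α * y ≤ 2 * Real.pi * α * y := by nlinarith
    have h4 : 0 ≤ |β| := abs_nonneg β
    nlinarith
  refine hCw.trans ?_
  have hexp : Real.exp (-2 * Real.pi * (α * y)) = Real.exp (-(2 * Real.pi * α * y)) := by
    congr 1
    ring
  rw [hexp]
  calc C * (1 + ‖(((α * y : ℝ) : ℂ) * Complex.I + (β : ℂ))‖) ^ j *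
        Real.exp (-(2 * Real.pi * α * y))
      ≤ |C| * ((2 + |β|) * (2 * Real.pi * α * y)) ^ j * Real.exp (-(2 * Real.pi * α * y)) := by
        refine mul_le_mul_of_nonneg_right ?_ (Real.exp_pos _).le
        refine mul_le_mul (le_abs_self C) (pow_le_pow_left₀ (by positivity) hle j)
          (by positivity) (abs_nonneg C)
    _ = |C| * (2 + |β|) ^ j * ((2 * Real.pi * α * y) ^ j * Real.exp (-(2 * Real.pi * α * y))) := by
        rw [mul_pow]
        ring

/-- decay of `prE f P` along vertical lines -/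
theorem kh2_pr (hb : SKA1b) {N : ℕ} (hN : NeZero N) {k : ℤ} (f : CuspForm (G0 N) k)
    (P : Polynomial ℤ) (α β : ℝ) (hα : 0 < α) :
    Tendsto (fun y : ℝ => prE f P (((α * y : ℝ) : ℂ) * Complex.I + (β : ℂ))) atTop (𝓝 0) := by
  have h : Tendsto (fun y : ℝ => ∑ i ∈ P.support, ((P.coeff i : ℤ) : ℂ) *
      EK f i (((α * y : ℝ) : ℂ) * Complex.I + (β : ℂ))) atTop
      (𝓝 (∑ i ∈ P.support, ((P.coeff i : ℤ) : ℂ) * 0)) :=
    tendsto_finsetSum _ (fun i _ => (kh2_ek hb hN f i α β hα).const_mul _)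
  simpa [prE, Polynomial.sum_def] using h

theorem hKH2 (h1 : SKH1) (he : SKE) (hb : SKA1b) : SKH2 := by
  intro N hN A f l lam m hl hf hm i hi z hz
  have hl0 : (l : ℂ) ≠ 0 := by exact_mod_cast hl.ne'
  have hlr : (0 : ℝ) < l := by exact_mod_cast hl
  have hrel := (h1 N hN (2 * A + 2) f l lam hl).1 hf m hm
  have hder := he N hN (2 * A + 2) f
  have him1 : ∀ w : ℂ, 0 < w.im → 0 < ((l : ℂ) * w).im := by
    intro w hw
    have : ((l : ℂ) * w).im = l * w.im := by simp
    rw [this]
    positivity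
  have him2 : ∀ (w : ℂ) (j : ℕ), 0 < w.im → 0 < ((w + m * j) / (l : ℂ)).im := by
    intro w j hw
    have : ((w + m * j) / (l : ℂ)).im = w.im / l := by
      rw [Complex.div_natCast_im]
      simp
    rw [this]
    positivity
  set Φ : ℂ → ℂ := fun w => (l : ℂ) ^ (2 * A - i) * EK f i (l * w) +
    ∑ j ∈ Finset.range l, prE f (mp A l (-(m * j)) 0 1 i) ((w + m * j) / l) - lam * EK f i w with hΦ
  have hD : ∀ w : ℂ, 0 < w.im → HasDerivAt Φ 0 w := by
    intro w hw
    have e1 : HasDerivAt (fun w : ℂ => (l : ℂ) ^ (2 * A - i) * EK f i (l * w))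
        ((l : ℂ) ^ (2 * A - i) * (fzK f (l * w) * (l * w) ^ i * l)) w := by
      have h := ((hder (l * w) (him1 w hw)).1 i)
      have h' : HasDerivAt (fun w : ℂ => (l : ℂ) * w) (l : ℂ) w := by
        simpa using (hasDerivAt_id w).const_mul (l : ℂ)
      exact (h.comp w h').const_mul _
    have e2 : ∀ j : ℕ, HasDerivAt
        (fun w : ℂ => prE f (mp A l (-(m * j)) 0 1 i) ((w + m * j) / l))
        (fzK f ((w + m * j) / l) * w ^ i * (l : ℂ)⁻¹) w := by
      intro j
      have h := ((hder ((w + m * j) / l) (him2 w j hw)).2 (mp A l (-(m * j)) 0 1 i))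
      have h' : HasDerivAt (fun w : ℂ => (w + m * j) / (l : ℂ)) ((l : ℂ)⁻¹) w := by
        have := ((hasDerivAt_id w).add_const ((m : ℂ) * j)).div_const (l : ℂ)
        simpa [one_div] using this
      have hev : Polynomial.aeval ((w + m * j) / (l : ℂ)) (mp A l (-(m * j)) 0 1 i) = w ^ i := by
        simp only [mp, map_mul, map_pow, map_add, Polynomial.aeval_X, eq_intCast, map_intCast]
        have : ((l : ℤ) : ℂ) * ((w + m * j) / (l : ℂ)) + ((-(m * j) : ℤ) : ℂ) = w := by
          push_cast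
          field_simp
          ring
        rw [this]
        simp
      rw [hev] at h
      exact h.comp w h'
    have e3 : HasDerivAt (fun w : ℂ => lam * EK f i w) (lam * (fzK f w * w ^ i)) w :=
      ((hder w hw).1 i).const_mul lam
    have e4 := (e1.add (HasDerivAt.fun_sum (u := Finset.range l) (fun j _ => e2 j))).sub e3
    have hr := hrel w hw
    refine e4.congr_deriv ?_
    have hz1 : ((l : ℂ) ^ ((2 * A + 2 : ℤ) - 1)) = (l : ℂ) ^ (2 * A + 1) := by
      rw [← zpow_natCast]
      congr 1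
      push_cast
      ring
    rw [hz1] at hr
    have hsum : ∑ j ∈ Finset.range l, fzK f ((w + m * j) / l) * w ^ i * (l : ℂ)⁻¹ =
        w ^ i * ((l : ℂ)⁻¹ * ∑ j ∈ Finset.range l, fzK f ((w + m * j) / l)) := by
      rw [Finset.mul_sum, Finset.mul_sum]
      exact Finset.sum_congr rfl (fun j _ => by ring)
    have hpow : (l : ℂ) ^ (2 * A + 1) = (l : ℂ) ^ (2 * A - i) * (l : ℂ) ^ i * l := by
      rw [← pow_add, ← pow_succ]
      congr 1
      omega
    rw [hsum]
    have : (l : ℂ)⁻¹ * ∑ j ∈ Finset.range l, fzK f ((w + m * j) / l) =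
        lam * fzK f w - (l : ℂ) ^ (2 * A + 1) * fzK f (l * w) := by
      rw [← hr]
      ring
    rw [this, hpow]
    ring
  have hopen : IsOpen {w : ℂ | 0 < w.im} := isOpen_lt continuous_const Complex.continuous_im
  have hconn : IsPreconnected {w : ℂ | 0 < w.im} :=
    (convex_halfSpace_im_gt 0).isPreconnected
  have hconst : ∀ w : ℂ, 0 < w.im → Φ w = Φ z := by
    intro w hw
    exact hopen.is_const_of_deriv_eq_zero hconn
      (fun x hx => (hD x hx).differentiableAt.differentiableWithinAt)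
      (fun x hx => (hD x hx).deriv) hw hz
  have hlim : Tendsto (fun y : ℝ => Φ ((y : ℂ) * Complex.I)) atTop (𝓝 0) := by
    have t1 : Tendsto (fun y : ℝ => (l : ℂ) ^ (2 * A - i) * EK f i (l * ((y : ℂ) * Complex.I)))
        atTop (𝓝 0) := by
      have h := (kh2_ek hb hN f i l 0 hlr).const_mul ((l : ℂ) ^ (2 * A - i))
      rw [mul_zero] at h
      refine h.congr (fun y => ?_)
      congr 2
      push_cast
      ring
    have t2 : ∀ j : ℕ, Tendsto (fun y : ℝ => prE f (mp A l (-(m * j)) 0 1 i)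
        (((y : ℂ) * Complex.I + m * j) / l)) atTop (𝓝 0) := by
      intro j
      have h := kh2_pr hb hN f (mp A l (-(m * j)) 0 1 i) ((l : ℝ)⁻¹) ((m : ℝ) * j / l)
        (by positivity)
      refine h.congr (fun y => ?_)
      congr 1
      push_cast
      field_simp
    have t3 : Tendsto (fun y : ℝ => lam * EK f i ((y : ℂ) * Complex.I)) atTop (𝓝 0) := by
      have h := (kh2_ek hb hN f i 1 0 one_pos).const_mul lam
      rw [mul_zero] at h
      refine h.congr (fun y => ?_)
      congr 2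
      push_cast
      ring
    have t4 := (t1.add (tendsto_finsetSum (Finset.range l) (fun j _ => t2 j))).sub t3
    simpa [hΦ] using t4
  have hev : ∀ᶠ y : ℝ in atTop, Φ ((y : ℂ) * Complex.I) = Φ z := by
    filter_upwards [eventually_gt_atTop (0 : ℝ)] with y hy
    exact hconst _ (by simpa using hy)
  have hz0 : Φ z = 0 :=
    tendsto_nhds_unique ((tendsto_congr' hev).2 tendsto_const_nhds |>.congr' (by
      filter_upwards with y; rfl)) hlim
  have := sub_eq_zero.1 hz0
  exact this

end Pool.Agent.Helper99.WK
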